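import Pool.Agent.Lib.MP_7d3540_nt.Comb

/-!
# MP_7d3540_nt: `G(kn) ≡ 1 (mod 4)` without small prime factors, and prime

For `k ≤ 4` or `k log z ≤ c log N`, at least `c N / (log z) ^ 2` of the `n ≤ N` have `G(kn) ≡ 1 (mod 4)`,
`G(kn) > 1`, all of whose prime factors exceed `z`; for `z ^ 2 ≥ k N` (so for `k ≤ 4`, `z = N ^ (3/5)`)
these `G(kn)` are primes.
-/

set_option autoImplicit false

open scoped Classical

namespace Pool.Agent.Results.MP_7d3540_nt.RoughValues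

open Pool.Agent.MP7d3540

lemma g_le_self (m : ℕ) : g m ≤ m := by
  rw [g_eq]
  have h : (Finset.range (m + 1)).filter NR ⊆ (Finset.range (m + 1)).erase 0 := by
    intro u hu
    rw [Finset.mem_filter] at hu
    rw [Finset.mem_erase]
    refine ⟨?_, hu.1⟩
    rcases NR_mod hu.2 with h | ⟨h, _⟩ <;> omega
  have h1 := Finset.card_le_card h
  rw [Finset.card_erase_of_mem (Finset.mem_range.2 (by omega)), Finset.card_range] at h1
  omega

theorem result : ∃ c : ℝ, 0 < c ∧ ∃ N₀ : ℕ, ∀ N : ℕ, N₀ ≤ N → ∀ z : ℝ, 2 ≤ z →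
    z ≤ (N : ℝ) ^ (3 / 5 : ℝ) → ∀ k : ℕ, 1 ≤ k →
    (k ≤ 4 ∨ (k : ℝ) * Real.log z ≤ c * Real.log N) →
    c * ((N : ℝ) / Real.log z ^ 2) ≤ (((Finset.Icc 1 N).filter (fun n : ℕ =>
      1 < G ((k : ℝ) * n) ∧ G ((k : ℝ) * n) % 4 = 1 ∧
      (∀ p : ℕ, p.Prime → p ∣ G ((k : ℝ) * n) → z < (p : ℝ)) ∧
      ((k : ℝ) * N ≤ z ^ 2 → (G ((k : ℝ) * n)).Prime))).card : ℝ) := by
  obtain ⟨c, hc, h⟩ := main
  obtain ⟨N₀, hN₀⟩ := Filter.eventually_atTop.1 h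
  refine ⟨c, hc, N₀, fun N hN z hz hzN k hk hkz => ?_⟩
  refine (hN₀ N hN z hz hzN k hk hkz).trans ?_
  have hsub : (Finset.Icc 1 N).filter (fun n => TT z (g (k * n))) ⊆
      (Finset.Icc 1 N).filter (fun n : ℕ =>
      1 < G ((k : ℝ) * n) ∧ G ((k : ℝ) * n) % 4 = 1 ∧
      (∀ p : ℕ, p.Prime → p ∣ G ((k : ℝ) * n) → z < (p : ℝ)) ∧
      ((k : ℝ) * N ≤ z ^ 2 → (G ((k : ℝ) * n)).Prime)) := by
    intro n hn
    rw [Finset.mem_filter] at hn ⊢
    obtain ⟨hn1, h1, h2, h3⟩ := hn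
    have e : G ((k : ℝ) * n) = g (k * n) := by
      rw [← G_nat, Nat.cast_mul]
    rw [e]
    refine ⟨hn1, h1, h2, h3, fun hz2 => ?_⟩
    by_contra hnp
    have hp := Nat.minFac_prime (show g (k * n) ≠ 1 by omega)
    have h4 := h3 _ hp (Nat.minFac_dvd _)
    have h5 : Nat.minFac (g (k * n)) ^ 2 ≤ g (k * n) := Nat.minFac_sq_le_self (by omega) hnp
    have h6 : g (k * n) ≤ k * N :=
      (g_le_self _).trans (Nat.mul_le_mul_left k (Finset.mem_Icc.1 hn1).2)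
    have h7 : ((Nat.minFac (g (k * n)) : ℝ)) ^ 2 ≤ (k : ℝ) * N := by
      exact_mod_cast h5.trans h6
    have h8 : z ^ 2 < ((Nat.minFac (g (k * n)) : ℝ)) ^ 2 :=
      pow_lt_pow_left₀ h4 (by linarith) (by norm_num)
    linarith
  exact_mod_cast Finset.card_le_card hsub

end Pool.Agent.Results.MP_7d3540_nt.RoughValues
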